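import Pool.Agent.Q18.KZ.S1

/-! KZ-MOM : the moment inequality (job of helper18's project KZ) -/

set_option autoImplicit false

namespace Pool.Agent.Q25.KZ

open Finset MeasureTheory Pool.Agent.Q18.KZ
open scoped Classical

/-- the indicator of `L ⊆ V` as a product -/
noncomputable def ind (L : Finset ℕ) (ω : ℕ → Bool) : ℝ := ∏ p ∈ L, (if ω p = true then (1 : ℝ) else 0)

lemma ind_eq (L : Finset ℕ) (ω : ℕ → Bool) : ind L ω = if ∀ p ∈ L, ω p = true then 1 else 0 := by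
  unfold ind
  by_cases h : ∀ p ∈ L, ω p = true
  · rw [if_pos h]
    exact Finset.prod_eq_one fun p hp => if_pos (h p hp)
  · rw [if_neg h]
    obtain ⟨p, hp⟩ := not_forall.1 h
    obtain ⟨hp1, hp2⟩ := not_forall.1 hp
    exact Finset.prod_eq_zero hp1 (if_neg hp2)

lemma ind_nonneg (L : Finset ℕ) (ω : ℕ → Bool) : 0 ≤ ind L ω := by
  rw [ind_eq]; split_ifs <;> norm_num

lemma ind_le_one (L : Finset ℕ) (ω : ℕ → Bool) : ind L ω ≤ 1 := by
  rw [ind_eq]; split_ifs <;> norm_num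

lemma ind_mul (L M : Finset ℕ) (ω : ℕ → Bool) : ind L ω * ind M ω = ind (L ∪ M) ω := by
  rw [ind_eq, ind_eq, ind_eq]
  by_cases h1 : ∀ p ∈ L, ω p = true
  · by_cases h2 : ∀ p ∈ M, ω p = true
    · have h3 : ∀ p ∈ L ∪ M, ω p = true := by
        intro p hp; rcases Finset.mem_union.1 hp with h | h
        · exact h1 p h
        · exact h2 p h
      rw [if_pos h1, if_pos h2, if_pos h3]; norm_num
    · have h3 : ¬ ∀ p ∈ L ∪ M, ω p = true := fun h => h2 fun p hp => h p (Finset.mem_union_right _ hp)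
      rw [if_neg h2, if_neg h3]; simp
  · have h3 : ¬ ∀ p ∈ L ∪ M, ω p = true := fun h => h1 fun p hp => h p (Finset.mem_union_left _ hp)
    rw [if_neg h1, if_neg h3]; simp

lemma ind_meas (L : Finset ℕ) : Measurable (ind L) := by
  unfold ind
  refine Finset.measurable_fun_prod _ fun p _ => ?_
  exact (measurable_of_finite (fun b : Bool => if b = true then (1 : ℝ) else 0)).comp (measurable_pi_apply p)

lemma ind_int {ρ : ℕ → ℝ} {P : Measure (ℕ → Bool)} (h : IsRand ρ P) (L : Finset ℕ) :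
    ∫ ω, ind L ω ∂P = ∏ p ∈ L, ρ p := by
  have := h.2 L (fun _ b => if b = true then (1 : ℝ) else 0)
  unfold ind
  rw [this]
  refine Finset.prod_congr rfl fun p _ => ?_
  simp

lemma ZZ_eq {ι : Type} (A : Finset ι) (c : ι → ℝ) (S : ι → Finset ℕ) (ω : ℕ → Bool) :
    ZZ A c S ω = ∑ a ∈ A, c a * ind (S a) ω := by
  unfold ZZ
  refine Finset.sum_congr rfl fun a _ => ?_
  rw [ind_eq]; split_ifs <;> simp

lemma ZZ_meas {ι : Type} (A : Finset ι) (c : ι → ℝ) (S : ι → Finset ℕ) : Measurable (fun ω => ZZ A c S ω) := by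
  simp_rw [ZZ_eq]
  exact Finset.measurable_fun_sum _ fun a _ => (ind_meas _).const_mul _

lemma ZZ_nonneg {ι : Type} {A : Finset ι} {c : ι → ℝ} (S : ι → Finset ℕ) (hc : ∀ a ∈ A, 0 ≤ c a) (ω : ℕ → Bool) :
    0 ≤ ZZ A c S ω := by
  rw [ZZ_eq]
  exact Finset.sum_nonneg fun a ha => mul_nonneg (hc a ha) (ind_nonneg _ _)

lemma ZZ_le {ι : Type} {A : Finset ι} {c : ι → ℝ} (S : ι → Finset ℕ) (hc : ∀ a ∈ A, 0 ≤ c a) (ω : ℕ → Bool) :
    ZZ A c S ω ≤ ∑ a ∈ A, c a := by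
  rw [ZZ_eq]
  refine Finset.sum_le_sum fun a ha => ?_
  have h1 := hc a ha
  have h2 := ind_le_one (S a) ω
  nlinarith

lemma integ {ι : Type} {A : Finset ι} {c : ι → ℝ} (S : ι → Finset ℕ) (hc : ∀ a ∈ A, 0 ≤ c a)
    (P : Measure (ℕ → Bool)) [IsFiniteMeasure P] (L : Finset ℕ) (k : ℕ) :
    Integrable (fun ω => ind L ω * ZZ A c S ω ^ k) P := by
  refine Integrable.of_bound (C := (∑ a ∈ A, c a) ^ k) ?_ ?_
  · exact ((ind_meas L).mul ((ZZ_meas A c S).pow_const k)).aestronglyMeasurable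
  · refine Filter.Eventually.of_forall fun ω => ?_
    have h1 := ind_nonneg L ω
    have h2 := ind_le_one L ω
    have h3 := ZZ_nonneg S hc ω
    have h4 := ZZ_le S hc ω
    have h5 : ZZ A c S ω ^ k ≤ (∑ a ∈ A, c a) ^ k := pow_le_pow_left₀ h3 h4 k
    have h6 : 0 ≤ ZZ A c S ω ^ k := pow_nonneg h3 k
    rw [Real.norm_of_nonneg (mul_nonneg h1 h6)]
    nlinarith

lemma core {ρ : ℕ → ℝ} {P : Measure (ℕ → Bool)} (hρ : ∀ p, 0 ≤ ρ p ∧ ρ p ≤ 1) (h : IsRand ρ P)
    {ι : Type} {A : Finset ι} {c : ι → ℝ} {S : ι → Finset ℕ} {n : ℕ} {B : ℝ} (hc : ∀ a ∈ A, 0 ≤ c a) (hB : 0 ≤ B)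
    (hP : ∀ L : Finset ℕ, (∃ T : Finset ι, T ⊆ A ∧ T.card < n ∧ L = T.biUnion S) → Psi ρ A c S L ≤ B) :
    ∀ k : ℕ, ∀ T : Finset ι, T ⊆ A → T.card + k ≤ n →
      ∫ ω, ind (T.biUnion S) ω * ZZ A c S ω ^ k ∂P ≤ (∏ p ∈ T.biUnion S, ρ p) * B ^ k := by
  haveI := h.1
  intro k
  induction k with
  | zero =>
    intro T _ _
    simp only [pow_zero, mul_one]
    rw [ind_int h]
  | succ k ih =>
    intro T hT hn
    have e1 : ∀ ω, ind (T.biUnion S) ω * ZZ A c S ω ^ (k + 1) =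
        ∑ a ∈ A, c a * (ind ((insert a T).biUnion S) ω * ZZ A c S ω ^ k) := by
      intro ω
      have : ZZ A c S ω ^ (k + 1) = (∑ a ∈ A, c a * ind (S a) ω) * ZZ A c S ω ^ k := by
        rw [← ZZ_eq]; ring
      rw [this, Finset.sum_mul, Finset.mul_sum]
      refine Finset.sum_congr rfl fun a _ => ?_
      rw [Finset.biUnion_insert, Finset.union_comm, ← ind_mul]
      ring
    simp_rw [e1]
    rw [integral_finsetSum _ (fun a _ => (integ S hc P _ k).const_mul (c a))]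
    have hρ0 : ∀ L : Finset ℕ, 0 ≤ ∏ p ∈ L, ρ p := fun L => Finset.prod_nonneg fun p _ => (hρ p).1
    calc ∑ a ∈ A, ∫ ω, c a * (ind ((insert a T).biUnion S) ω * ZZ A c S ω ^ k) ∂P
        ≤ ∑ a ∈ A, c a * ((∏ p ∈ (insert a T).biUnion S, ρ p) * B ^ k) := by
          refine Finset.sum_le_sum fun a ha => ?_
          rw [integral_const_mul]
          refine mul_le_mul_of_nonneg_left ?_ (hc a ha)
          refine ih _ (Finset.insert_subset ha hT) ?_
          have := Finset.card_insert_le a T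
          omega
      _ = (∏ p ∈ T.biUnion S, ρ p) * Psi ρ A c S (T.biUnion S) * B ^ k := by
          unfold Psi
          rw [Finset.mul_sum, Finset.sum_mul]
          refine Finset.sum_congr rfl fun a _ => ?_
          have e2 : (insert a T).biUnion S = T.biUnion S ∪ (S a \ T.biUnion S) := by
            rw [Finset.biUnion_insert, Finset.union_comm, Finset.union_sdiff_self_eq_union]
          rw [e2, Finset.prod_union (Finset.disjoint_sdiff)]
          ring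
      _ ≤ (∏ p ∈ T.biUnion S, ρ p) * B * B ^ k := by
          refine mul_le_mul_of_nonneg_right ?_ (pow_nonneg hB k)
          refine mul_le_mul_of_nonneg_left ?_ (hρ0 _)
          exact hP _ ⟨T, hT, by omega, rfl⟩
      _ = (∏ p ∈ T.biUnion S, ρ p) * B ^ (k + 1) := by ring

theorem t_MOM : S_MOM := by
  intro ρ P hρ h ι A c S k B hc hB hP
  haveI := h.1
  have h1 : ∫ ω, ZZ A c S ω ^ k ∂P ≤ B ^ k := by
    have := core hρ h hc hB hP k ∅ (by simp) (by simp)
    simpa [ind] using this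
  refine ⟨h1, fun t ht => ?_⟩
  have hi : Integrable (fun ω => ZZ A c S ω ^ k) P := by
    have := integ S hc P ∅ k
    simpa [ind] using this
  have h2 := mul_meas_ge_le_integral_of_nonneg (μ := P) (f := fun ω => ZZ A c S ω ^ k)
    (Filter.Eventually.of_forall fun ω => pow_nonneg (ZZ_nonneg S hc ω) k) hi (t ^ k)
  have h3 : P {ω | t < ZZ A c S ω} ≤ P {ω | t ^ k ≤ ZZ A c S ω ^ k} :=
    measure_mono fun ω (hω : t < ZZ A c S ω) => pow_le_pow_left₀ ht.le hω.le k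
  refine h3.trans ?_
  have h4 : P {ω | t ^ k ≤ ZZ A c S ω ^ k} = ENNReal.ofReal (P.real {ω | t ^ k ≤ ZZ A c S ω ^ k}) := by
    rw [Measure.real, ENNReal.ofReal_toReal (measure_ne_top _ _)]
  rw [h4]
  refine ENNReal.ofReal_le_ofReal ?_
  have h5 : 0 < t ^ k := pow_pos ht k
  rw [div_pow, le_div_iff₀ h5]
  calc P.real {ω | t ^ k ≤ ZZ A c S ω ^ k} * t ^ k = t ^ k * P.real {ω | t ^ k ≤ ZZ A c S ω ^ k} := by ring
    _ ≤ ∫ ω, ZZ A c S ω ^ k ∂P := h2
    _ ≤ B ^ k := h1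

end Pool.Agent.Q25.KZ
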