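import Pool.Agent.Q18.KZ.S1

/-! KZ-PS : independent indicators exist (job of helper18's project KZ) -/

set_option autoImplicit false

namespace Pool.Agent.Q25.KZ

open Finset MeasureTheory Pool.Agent.Q18.KZ

/-- the law of one coordinate -/
noncomputable def nu (r : ℝ) : Measure Bool :=
  ENNReal.ofReal r • Measure.dirac true + ENNReal.ofReal (1 - r) • Measure.dirac false

lemma nu_prob {r : ℝ} (h0 : 0 ≤ r) (h1 : r ≤ 1) : IsProbabilityMeasure (nu r) := by
  constructor
  unfold nu
  simp only [Measure.add_apply, Measure.smul_apply, measure_univ, smul_eq_mul, mul_one]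
  rw [← ENNReal.ofReal_add h0 (by linarith)]
  simp

lemma nu_int {r : ℝ} (h0 : 0 ≤ r) (h1 : r ≤ 1) (g : Bool → ℝ) :
    ∫ b, g b ∂(nu r) = r * g true + (1 - r) * g false := by
  unfold nu
  rw [integral_add_measure, integral_smul_measure, integral_smul_measure, integral_dirac, integral_dirac,
    ENNReal.toReal_ofReal h0, ENNReal.toReal_ofReal (by linarith)]
  · simp
  · haveI : IsFiniteMeasure (ENNReal.ofReal r • Measure.dirac true : Measure Bool) := by
      constructor; simp
    exact Integrable.of_finite
  · haveI : IsFiniteMeasure (ENNReal.ofReal (1 - r) • Measure.dirac false : Measure Bool) := by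
      constructor; simp
    exact Integrable.of_finite

theorem t_PS : S_PS := by
  intro ρ hρ
  haveI : ∀ p, IsProbabilityMeasure (nu (ρ p)) := fun p => nu_prob (hρ p).1 (hρ p).2
  refine ⟨Measure.infinitePi (fun p => nu (ρ p)), inferInstance, ?_⟩
  intro S φ
  have h1 : ∀ ω : ℕ → Bool, ∏ p ∈ S, φ p (ω p) = ∏ p : S, φ p (S.restrict ω p) := by
    intro ω
    rw [← Finset.prod_coe_sort]
    rfl
  simp_rw [h1]
  rw [integral_restrict_infinitePi (μ := fun p => nu (ρ p)) (s := S)
    (f := fun y : (Π i : S, Bool) => ∏ p : S, φ p (y p))]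
  · rw [integral_fintype_prod_eq_prod (μ := fun p : S => nu (ρ p)) (f := fun (p : S) b => φ p b)]
    rw [← Finset.prod_coe_sort S (fun p => ρ p * φ p true + (1 - ρ p) * φ p false)]
    refine Finset.prod_congr rfl fun p _ => ?_
    exact nu_int (hρ p).1 (hρ p).2 _
  · exact (measurable_of_finite _).aestronglyMeasurable

end Pool.Agent.Q25.KZ
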